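import Mathlib
import Pool.Agent.R195.CF.Lower

/-!
# Discrete orbits of cylindrical transformations: a set of Hausdorff dimension one

Let `α = ∑ 4 ^ (-i ^ 2)`, `Q_k = 4 ^ (k ^ 2)`, and let `δ_k` be the fractional part of `Q_k α`. We take
`φ x = ∑ A_k (sin (2π Q_k (x + α)) - sin (2π Q_k x))` with `A_k = 4 ^ (2 k + 1) / ((k + 1) (k + 2))`.
If `Q_k x` is in `[0, 1/16]` modulo `1` for all `k`, then the terms with `n δ_k ≤ 1/16` of the
`n`-th Birkhoff sum over `x` all have the sign of `n`, and they dominate the other ones. The set of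
these `x` has Hausdorff dimension one.
-/

set_option autoImplicit false

open Filter Set Topology MeasureTheory

namespace Pool.Agent.Results.MP_7c4bf8_an.DiscreteOrbitsDimOne

/-- The Birkhoff sums `φ^(n) (x)` over the rotation by `a`: the sum of the `φ (x + j a)`, `0 ≤ j < n`,
for `n ≥ 0`, and minus the sum of the `φ (x + j a)`, `n ≤ j ≤ -1`, for `n < 0`. -/
noncomputable def birkhoff (a : UnitAddCircle) (φ : UnitAddCircle → ℝ) :
    ℤ → UnitAddCircle → ℝ
  | Int.ofNat n, x => ∑ j ∈ Finset.range n, φ (x + j • a)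
  | Int.negSucc n, x => -∑ j ∈ Finset.range (n + 1), φ (x - (j + 1) • a)

/-- The set `D(α, φ)` of the `x` with `|φ^(n) (x)| → ∞` for `|n| → ∞`: the points of the circle
over which the orbits of the cylindrical transformation are discrete. -/
def discreteSet (a : UnitAddCircle) (φ : UnitAddCircle → ℝ) : Set UnitAddCircle :=
  {x | Tendsto (fun n : ℤ => |birkhoff a φ n x|) cofinite atTop}

noncomputable section

/-! ### The rotation number -/

/-- the rotation number -/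
def al : ℝ := ∑' i : ℕ, ((4 : ℝ) ^ (i ^ 2))⁻¹

def a : UnitAddCircle := (al : ℝ)

lemma summable_al : Summable (fun i : ℕ => ((4 : ℝ) ^ (i ^ 2))⁻¹) := by
  refine Summable.of_nonneg_of_le (fun i => by positivity) (fun i => ?_)
    (summable_geometric_of_lt_one (r := (4 : ℝ)⁻¹) (by norm_num) (by norm_num))
  rw [inv_pow]
  apply inv_anti₀ (by positivity)
  apply pow_le_pow_right₀ (by norm_num)
  nlinarith

/-- the fractional part of `Q_k α` -/
def δ (k : ℕ) : ℝ := ∑' j : ℕ, (4 : ℝ) ^ (k ^ 2) * ((4 : ℝ) ^ ((j + (k + 1)) ^ 2))⁻¹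

lemma summable_δ (k : ℕ) :
    Summable (fun j : ℕ => (4 : ℝ) ^ (k ^ 2) * ((4 : ℝ) ^ ((j + (k + 1)) ^ 2))⁻¹) :=
  ((summable_nat_add_iff (f := fun i : ℕ => ((4 : ℝ) ^ (i ^ 2))⁻¹) (k + 1)).2 summable_al).mul_left _

lemma δ_ge (k : ℕ) : ((4 : ℝ) ^ (2 * k + 1))⁻¹ ≤ δ k := by
  unfold δ
  refine le_trans (le_of_eq ?_) ((summable_δ k).le_tsum 0 (fun j _ => by positivity))
  rw [zero_add, show (k + 1) ^ 2 = k ^ 2 + (2 * k + 1) by ring, pow_add (4 : ℝ) (k ^ 2)]
  field_simp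

lemma δ_pos (k : ℕ) : 0 < δ k := lt_of_lt_of_le (by positivity) (δ_ge k)

lemma δ_le (k : ℕ) : δ k ≤ 2 * ((4 : ℝ) ^ (2 * k + 1))⁻¹ := by
  unfold δ
  have hg : HasSum (fun j : ℕ => ((4 : ℝ) ^ (2 * k + 1))⁻¹ * ((4 : ℝ)⁻¹) ^ j)
      (((4 : ℝ) ^ (2 * k + 1))⁻¹ * (1 - (4 : ℝ)⁻¹)⁻¹) :=
    (hasSum_geometric_of_lt_one (by norm_num) (by norm_num)).mul_left _
  have h1 : ∑' j : ℕ, (4 : ℝ) ^ (k ^ 2) * ((4 : ℝ) ^ ((j + (k + 1)) ^ 2))⁻¹ ≤
      ((4 : ℝ) ^ (2 * k + 1))⁻¹ * (1 - (4 : ℝ)⁻¹)⁻¹ := by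
    refine hasSum_le (fun j => ?_) (summable_δ k).hasSum hg
    have h2 : (4 : ℝ) ^ (k ^ 2 + (2 * k + 1) + j) ≤ 4 ^ ((j + (k + 1)) ^ 2) := by
      apply pow_le_pow_right₀ (by norm_num)
      nlinarith
    rw [inv_pow, ← mul_inv, ← pow_add, ← div_eq_mul_inv, div_le_iff₀ (by positivity), inv_mul_eq_div,
      le_div_iff₀ (by positivity), ← pow_add, ← add_assoc]
    exact h2
  refine h1.trans ?_
  have h3 : (0 : ℝ) ≤ ((4 : ℝ) ^ (2 * k + 1))⁻¹ := by positivity
  nlinarith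

lemma tendsto_δ : Tendsto δ atTop (𝓝 0) := by
  have h : Tendsto (fun k : ℕ => 2 * ((4 : ℝ)⁻¹) ^ k) atTop (𝓝 0) := by
    have := (tendsto_pow_atTop_nhds_zero_of_lt_one (r := (4 : ℝ)⁻¹) (by norm_num)
      (by norm_num)).const_mul 2
    simpa using this
  refine squeeze_zero (fun k => (δ_pos k).le) (fun k => (δ_le k).trans ?_) h
  rw [inv_pow]
  have : ((4 : ℝ) ^ (2 * k + 1))⁻¹ ≤ (4 ^ k)⁻¹ := by
    apply inv_anti₀ (by positivity)
    exact pow_le_pow_right₀ (by norm_num) (by omega)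
  linarith

/-- `Q_k α = δ_k` modulo `1` -/
lemma Q_al (k : ℕ) : ∃ m : ℤ, (4 : ℝ) ^ (k ^ 2) * al = m + δ k := by
  have h := summable_al.sum_add_tsum_nat_add (k + 1)
  refine ⟨∑ i ∈ Finset.range (k + 1), (4 : ℤ) ^ (k ^ 2 - i ^ 2), ?_⟩
  unfold al
  rw [← h, mul_add, Finset.mul_sum, δ, tsum_mul_left]
  congr 1
  push_cast
  refine Finset.sum_congr rfl fun i hi => ?_
  have hik : i ^ 2 ≤ k ^ 2 := Nat.pow_le_pow_left (by rw [Finset.mem_range] at hi; omega) 2
  rw [← div_eq_mul_inv, div_eq_iff (by positivity), ← pow_add, Nat.sub_add_cancel hik]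

lemma irrational_al : Irrational al := by
  rintro ⟨q, hq⟩
  -- `q.den * δ k` is a positive integer
  have h1 : ∀ k, ∃ z : ℤ, (q.den : ℝ) * δ k = z := by
    intro k
    obtain ⟨m, hm⟩ := Q_al k
    refine ⟨4 ^ (k ^ 2) * q.num - q.den * m, ?_⟩
    have h2 : (q.den : ℝ) * al = q.num := by
      rw [← hq]
      exact_mod_cast Rat.den_mul_eq_num q
    have h3 : δ k = (4 : ℝ) ^ (k ^ 2) * al - m := by linarith
    rw [h3, mul_sub, mul_left_comm, h2]
    push_cast
    ring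
  have h2 : Tendsto (fun k => (q.den : ℝ) * δ k) atTop (𝓝 0) := by
    simpa using tendsto_δ.const_mul (q.den : ℝ)
  obtain ⟨k, hk⟩ := (h2.eventually (gt_mem_nhds (show (0 : ℝ) < 1 by norm_num))).exists
  obtain ⟨z, hz⟩ := h1 k
  have h3 : (0 : ℝ) < (q.den : ℝ) * δ k := mul_pos (by exact_mod_cast q.den_pos) (δ_pos k)
  rw [hz] at hk h3
  have h4 : (0 : ℤ) < z := by exact_mod_cast h3
  have h5 : z < 1 := by exact_mod_cast hk
  omega

/-! ### The function -/

/-- `sin (2π x)` on the circle. -/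
def sinT (x : UnitAddCircle) : ℝ := (AddCircle.toCircle x : ℂ).im

lemma sinT_coe (t : ℝ) : sinT (t : UnitAddCircle) = Real.sin (2 * Real.pi * t) := by
  unfold sinT
  have := fourier_coe_apply (T := (1 : ℝ)) (n := 1) (x := t)
  rw [fourier_one] at this
  rw [this, show (2 * Real.pi * Complex.I * ((1 : ℤ) : ℂ) * (t : ℂ) / ((1 : ℝ) : ℂ))
    = ((2 * Real.pi * t : ℝ) : ℂ) * Complex.I by push_cast; ring, Complex.exp_ofReal_mul_I_im]

lemma continuous_sinT : Continuous sinT := by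
  unfold sinT
  exact Complex.continuous_im.comp (continuous_subtype_val.comp AddCircle.continuous_toCircle)

lemma abs_sinT_le (x : UnitAddCircle) : |sinT x| ≤ 1 := by
  unfold sinT
  exact (Complex.abs_im_le_norm _).trans (le_of_eq (Circle.norm_coe _))

lemma zsmul_coe (k : ℤ) (t : ℝ) : k • (t : UnitAddCircle) = ((k * t : ℝ) : UnitAddCircle) := by
  rw [← zsmul_eq_mul]; rfl

lemma int_coe (k : ℤ) : ((k : ℝ) : UnitAddCircle) = 0 := by
  rw [AddCircle.coe_eq_zero_iff]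
  exact ⟨k, by simp⟩

lemma Q_smul (k : ℕ) (m : ℤ) : ((4 : ℤ) ^ (k ^ 2)) • (m • a) = ((m * δ k : ℝ) : UnitAddCircle) := by
  unfold a
  obtain ⟨z, hz⟩ := Q_al k
  rw [zsmul_coe, zsmul_coe]
  have h1 : (((4 : ℤ) ^ (k ^ 2) : ℤ) : ℝ) * (m * al) = m * δ k + ((m * z : ℤ) : ℝ) := by
    push_cast
    rw [mul_left_comm, hz]
    ring
  rw [h1, AddCircle.coe_add, int_coe, add_zero]

/-- the weights -/
def b (k : ℕ) : ℝ := 1 / (((k : ℝ) + 1) * ((k : ℝ) + 2))

lemma b_pos (k : ℕ) : 0 < b k := by unfold b; positivity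

def A (k : ℕ) : ℝ := b k * 4 ^ (2 * k + 1)

lemma A_pos (k : ℕ) : 0 < A k := mul_pos (b_pos k) (by positivity)

lemma b_eq (k : ℕ) : b k = 1 / ((k : ℝ) + 1) - 1 / ((k : ℝ) + 2) := by
  unfold b
  field_simp
  ring

lemma sum_b (K M : ℕ) : ∑ k ∈ Finset.range M, b (k + K) = 1 / ((K : ℝ) + 1) - 1 / ((M : ℝ) + K + 1) := by
  induction M with
  | zero => simp
  | succ M ih =>
    rw [Finset.sum_range_succ, ih, b_eq]
    push_cast
    ring

lemma summable_b : Summable b := by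
  apply summable_of_sum_range_le (c := 1) (fun n => (b_pos n).le)
  intro n
  have := sum_b 0 n
  simp only [add_zero, Nat.cast_zero, zero_add] at this
  rw [this]
  have : (0 : ℝ) < 1 / ((n : ℝ) + 1) := by positivity
  norm_num
  linarith

lemma A_mul_δ_ge (k : ℕ) : b k ≤ A k * δ k := by
  unfold A
  have h := δ_ge k
  have h2 : (0 : ℝ) < 4 ^ (2 * k + 1) := by positivity
  have h3 : 1 ≤ (4 : ℝ) ^ (2 * k + 1) * δ k := by
    have := mul_le_mul_of_nonneg_left h h2.le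
    rwa [mul_inv_cancel₀ h2.ne'] at this
  have := b_pos k
  nlinarith

lemma A_mul_δ_le (k : ℕ) : A k * δ k ≤ 2 * b k := by
  unfold A
  have h := δ_le k
  have h2 : (0 : ℝ) < 4 ^ (2 * k + 1) := by positivity
  have h3 : (4 : ℝ) ^ (2 * k + 1) * δ k ≤ 2 := by
    have := mul_le_mul_of_nonneg_left h h2.le
    rwa [mul_left_comm, mul_inv_cancel₀ h2.ne', mul_one] at this
  have := b_pos k
  nlinarith

lemma A_succ (k : ℕ) : 2 * A k ≤ A (k + 1) := by
  unfold A b
  rw [show (4 : ℝ) ^ (2 * (k + 1) + 1) = 4 ^ 2 * 4 ^ (2 * k + 1) by rw [← pow_add]; congr 1; ring]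
  push_cast
  have h2 : (0 : ℝ) < 4 ^ (2 * k + 1) := by positivity
  have hk : (0 : ℝ) ≤ k := Nat.cast_nonneg k
  have h3 : 2 * (1 / (((k : ℝ) + 1) * ((k : ℝ) + 2))) ≤
      1 / (((k : ℝ) + 1 + 1) * ((k : ℝ) + 1 + 2)) * 4 ^ 2 := by
    rw [mul_one_div, div_mul_eq_mul_div, one_mul, div_le_div_iff₀ (by positivity) (by positivity)]
    nlinarith
  calc 2 * (1 / (((k : ℝ) + 1) * ((k : ℝ) + 2)) * 4 ^ (2 * k + 1))
      = 2 * (1 / (((k : ℝ) + 1) * ((k : ℝ) + 2))) * 4 ^ (2 * k + 1) := by ring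
    _ ≤ (1 / (((k : ℝ) + 1 + 1) * ((k : ℝ) + 1 + 2)) * 4 ^ 2) * 4 ^ (2 * k + 1) := by gcongr
    _ = _ := by ring

lemma sum_A (K : ℕ) : ∑ k ∈ Finset.range (K + 1), A k ≤ 2 * A K := by
  induction K with
  | zero => simp; linarith [A_pos 0]
  | succ K ih =>
    rw [Finset.sum_range_succ]
    have := A_succ K
    linarith

/-- the `k`-th term of the `m`-th Birkhoff sum -/
def term (k : ℕ) (m : ℤ) (x : UnitAddCircle) : ℝ :=
  A k * (sinT (((4 : ℤ) ^ (k ^ 2)) • (x + m • a)) - sinT (((4 : ℤ) ^ (k ^ 2)) • x))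

lemma sin_sub_le (u v : ℝ) : |Real.sin u - Real.sin v| ≤ |u - v| := by
  rw [Real.sin_sub_sin, abs_mul, abs_mul]
  have h1 := Real.abs_cos_le_one ((u + v) / 2)
  have h2 : |Real.sin ((u - v) / 2)| ≤ |(u - v) / 2| := Real.abs_sin_le_abs
  rw [abs_div] at h2
  simp only [Nat.abs_ofNat] at *
  have h3 := abs_nonneg (Real.sin ((u - v) / 2))
  have h4 := abs_nonneg (Real.cos ((u + v) / 2))
  nlinarith [abs_nonneg (u - v)]

lemma term_abs_le (k : ℕ) (m : ℤ) (x : UnitAddCircle) :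
    |term k m x| ≤ 4 * Real.pi * |(m : ℝ)| * b k := by
  obtain ⟨t, ht⟩ : ∃ t : ℝ, (t : UnitAddCircle) = ((4 : ℤ) ^ (k ^ 2)) • x := by
    induction ((4 : ℤ) ^ (k ^ 2)) • x using QuotientAddGroup.induction_on with
    | H s => exact ⟨s, rfl⟩
  unfold term
  rw [smul_add, Q_smul, ← ht, ← AddCircle.coe_add, sinT_coe, sinT_coe, abs_mul,
    abs_of_pos (A_pos k)]
  have h := sin_sub_le (2 * Real.pi * (t + m * δ k)) (2 * Real.pi * t)
  have h2 : |2 * Real.pi * (t + m * δ k) - 2 * Real.pi * t| = 2 * Real.pi * (|(m : ℝ)| * δ k) := by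
    rw [show 2 * Real.pi * (t + m * δ k) - 2 * Real.pi * t = 2 * Real.pi * (m * δ k) by ring,
      abs_mul, abs_mul (m : ℝ), abs_of_pos Real.two_pi_pos, abs_of_pos (δ_pos k)]
  rw [h2] at h
  have h3 := A_mul_δ_le k
  have h4 := A_pos k
  have h5 : (0 : ℝ) ≤ 2 * Real.pi * |(m : ℝ)| := by positivity
  calc A k * _ ≤ A k * (2 * Real.pi * (|(m : ℝ)| * δ k)) := by gcongr
    _ = 2 * Real.pi * |(m : ℝ)| * (A k * δ k) := by ring
    _ ≤ 2 * Real.pi * |(m : ℝ)| * (2 * b k) := by gcongr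
    _ = _ := by ring

lemma summable_term (m : ℤ) (x : UnitAddCircle) : Summable (fun k => term k m x) :=
  Summable.of_norm_bounded (summable_b.mul_left (4 * Real.pi * |(m : ℝ)|))
    (fun k => term_abs_le k m x)

/-- The function. -/
def f (x : UnitAddCircle) : ℝ := ∑' k, term k 1 x

lemma continuous_term (k : ℕ) (m : ℤ) : Continuous (term k m) := by
  unfold term
  exact continuous_const.mul ((continuous_sinT.comp (by fun_prop)).sub
    (continuous_sinT.comp (by fun_prop)))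

lemma continuous_f : Continuous f := by
  unfold f
  exact continuous_tsum (fun k => continuous_term k 1)
    (summable_b.mul_left (4 * Real.pi * |((1 : ℤ) : ℝ)|)) (fun k x => term_abs_le k 1 x)

lemma term_step (k : ℕ) (m : ℤ) (x : UnitAddCircle) :
    term k (m + 1) x = term k m x + term k 1 (x + m • a) := by
  unfold term
  rw [add_smul m 1 a, one_smul, add_assoc]
  ring

lemma sum_step (m : ℤ) (x : UnitAddCircle) :
    ∑' k, term k (m + 1) x = ∑' k, term k m x + f (x + m • a) := by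
  unfold f
  rw [← (summable_term m x).tsum_add (summable_term 1 _)]
  exact tsum_congr fun k => term_step k m x

lemma birkhoff_eq (m : ℤ) (x : UnitAddCircle) : birkhoff a f m x = ∑' k, term k m x := by
  have h0 : ∑' k, term k 0 x = 0 := by simp [term]
  cases m with
  | ofNat n =>
    show ∑ j ∈ Finset.range n, f (x + j • a) = _
    induction n with
    | zero => simp [h0]
    | succ n ih =>
      rw [Finset.sum_range_succ, ih]
      have := sum_step n x
      rw [natCast_zsmul] at this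
      simp only [Int.ofNat_eq_natCast, Nat.cast_add, Nat.cast_one] at *
      exact this.symm
  | negSucc n =>
    show -∑ j ∈ Finset.range (n + 1), f (x - (j + 1) • a) = _
    have key : ∀ n : ℕ, -∑ j ∈ Finset.range n, f (x - (j + 1) • a) = ∑' k, term k (-(n : ℤ)) x := by
      intro n
      induction n with
      | zero => simp [h0]
      | succ n ih =>
        rw [Finset.sum_range_succ, neg_add, ih]
        have := sum_step (-((n + 1 : ℕ) : ℤ)) x
        rw [show -((n + 1 : ℕ) : ℤ) + 1 = -(n : ℤ) by push_cast; ring, neg_smul, natCast_zsmul,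
          ← sub_eq_add_neg] at this
        linarith
    rw [key (n + 1), Int.negSucc_eq]
    push_cast
    rfl

lemma integral_f : ∫ x, f x = 0 := by
  have h1 : ∀ k, ∫ x, term k 1 x = 0 := by
    intro k
    have hc : Continuous fun x : UnitAddCircle => sinT (((4 : ℤ) ^ (k ^ 2)) • x) :=
      continuous_sinT.comp (by fun_prop)
    have hi : Integrable fun x : UnitAddCircle => sinT (((4 : ℤ) ^ (k ^ 2)) • x) :=
      hc.integrable_of_hasCompactSupport (HasCompactSupport.of_compactSpace _)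
    unfold term
    rw [integral_const_mul, integral_sub (by
      exact (hi.comp_add_right ((1 : ℤ) • a))) hi,
      integral_add_right_eq_self (fun x : UnitAddCircle => sinT (((4 : ℤ) ^ (k ^ 2)) • x))
        ((1 : ℤ) • a), sub_self, mul_zero]
  have h2 : ∀ k, Integrable (fun x => term k 1 x) := fun k =>
    (continuous_term k 1).integrable_of_hasCompactSupport (HasCompactSupport.of_compactSpace _)
  unfold f
  rw [← integral_tsum_of_summable_integral_norm h2]
  · simp [h1]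
  · have h3 : ∀ k, ∫ x, ‖term k 1 x‖ ≤ 4 * Real.pi * b k := by
      intro k
      have : ∫ x, ‖term k 1 x‖ ≤ ∫ _x : UnitAddCircle, 4 * Real.pi * b k := by
        apply integral_mono (h2 k).norm (integrable_const _)
        intro x
        have := term_abs_le k 1 x
        simpa using this
      simpa [measureReal_def, UnitAddCircle.measure_univ] using this
    exact Summable.of_nonneg_of_le (fun k => integral_nonneg fun x => norm_nonneg _) h3
      (summable_b.mul_left _)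

/-! ### The main estimate -/

lemma cos_ge {u : ℝ} (h1 : -(Real.pi / 4) ≤ u) (h2 : u ≤ Real.pi / 4) : 1 / 2 ≤ Real.cos u := by
  have h3 : Real.cos (Real.pi / 3) ≤ Real.cos u := by
    rw [← Real.cos_abs u]
    apply Real.cos_le_cos_of_nonneg_of_le_pi (abs_nonneg u)
    · linarith [Real.pi_pos]
    · exact abs_le.2 ⟨by linarith [Real.pi_pos], by linarith [Real.pi_pos]⟩ |>.trans
        (by linarith [Real.pi_pos] : Real.pi / 4 ≤ Real.pi / 3)
  rwa [Real.cos_pi_div_three] at h3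

lemma sin_inc {t u : ℝ} (ht0 : 0 ≤ t) (ht : t ≤ 1 / 16) (hu0 : 0 ≤ u) (hu : u ≤ 1 / 16) :
    2 * u ≤ Real.sin (2 * Real.pi * (t + u)) - Real.sin (2 * Real.pi * t) := by
  rw [Real.sin_sub_sin]
  have hpi := Real.pi_pos
  have e1 : (2 * Real.pi * (t + u) - 2 * Real.pi * t) / 2 = Real.pi * u := by ring
  have e2 : (2 * Real.pi * (t + u) + 2 * Real.pi * t) / 2 = Real.pi * (2 * t + u) := by ring
  rw [e1, e2]
  have h1 : 1 / 2 ≤ Real.cos (Real.pi * (2 * t + u)) := by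
    apply cos_ge
    · have : 0 ≤ Real.pi * (2 * t + u) := by positivity
      linarith
    · nlinarith
  have h2 : 2 * u ≤ Real.sin (Real.pi * u) := by
    have := Real.mul_le_sin (x := Real.pi * u) (by positivity) (by nlinarith)
    calc 2 * u = 2 / Real.pi * (Real.pi * u) := by field_simp
      _ ≤ _ := this
  nlinarith

lemma sin_dec {t u : ℝ} (ht0 : 0 ≤ t) (ht : t ≤ 1 / 16) (hu0 : 0 ≤ u) (hu : u ≤ 1 / 16) :
    Real.sin (2 * Real.pi * (t + -u)) - Real.sin (2 * Real.pi * t) ≤ -(2 * u) := by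
  rw [← neg_sub, Real.sin_sub_sin]
  have hpi := Real.pi_pos
  have e1 : (2 * Real.pi * t - 2 * Real.pi * (t + -u)) / 2 = Real.pi * u := by ring
  have e2 : (2 * Real.pi * t + 2 * Real.pi * (t + -u)) / 2 = Real.pi * (2 * t - u) := by ring
  rw [e1, e2]
  have h1 : 1 / 2 ≤ Real.cos (Real.pi * (2 * t - u)) := by
    apply cos_ge
    · nlinarith
    · nlinarith
  have h2 : 2 * u ≤ Real.sin (Real.pi * u) := by
    have := Real.mul_le_sin (x := Real.pi * u) (by positivity) (by nlinarith)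
    calc 2 * u = 2 / Real.pi * (Real.pi * u) := by field_simp
      _ ≤ _ := this
  nlinarith

/-- all `Q_k x` are in `[0, 1/16]` modulo `1` -/
def Good (x : UnitAddCircle) : Prop :=
  ∀ k : ℕ, ∃ t : ℝ, 0 ≤ t ∧ t ≤ 1 / 16 ∧ ((4 : ℤ) ^ (k ^ 2)) • x = (t : UnitAddCircle)

lemma term_ge_two {x : UnitAddCircle} (k : ℕ) (m : ℤ) : |term k m x| ≤ 2 * A k := by
  unfold term
  rw [abs_mul, abs_of_pos (A_pos k)]
  have h1 := abs_sinT_le (((4 : ℤ) ^ (k ^ 2)) • (x + m • a))
  have h2 := abs_sinT_le (((4 : ℤ) ^ (k ^ 2)) • x)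
  have h3 := abs_sub (sinT (((4 : ℤ) ^ (k ^ 2)) • (x + m • a))) (sinT (((4 : ℤ) ^ (k ^ 2)) • x))
  have := A_pos k
  nlinarith

/-- the sign of `ε` times the `k`-th term -/
lemma term_sign {x : UnitAddCircle} (hx : Good x) {ε : ℤ} (hε : ε = 1 ∨ ε = -1) (k n : ℕ)
    (hn : n * δ k ≤ 1 / 16) : 2 * n * b k ≤ ε * term k (ε * n) x := by
  obtain ⟨t, ht0, ht, htx⟩ := hx k
  have hδ := δ_pos k
  have hA := A_pos k
  have h1 : 0 ≤ n * δ k := by positivity
  have h2 : (2 * (n * δ k)) ≤ ε * (sinT (((4 : ℤ) ^ (k ^ 2)) • (x + (ε * n : ℤ) • a)) -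
      sinT (((4 : ℤ) ^ (k ^ 2)) • x)) := by
    rw [smul_add, Q_smul, htx, ← AddCircle.coe_add, sinT_coe, sinT_coe]
    rcases hε with rfl | rfl
    · have := sin_inc ht0 ht h1 hn
      push_cast
      rw [one_mul, one_mul]
      exact this
    · have := sin_dec ht0 ht h1 hn
      push_cast
      rw [show t + -1 * (n : ℝ) * δ k = t + -(n * δ k) by ring]
      linarith
  unfold term
  have h3 := A_mul_δ_ge k
  calc 2 * (n : ℝ) * b k ≤ 2 * n * (A k * δ k) := by gcongr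
    _ = A k * (2 * (n * δ k)) := by ring
    _ ≤ A k * _ := mul_le_mul_of_nonneg_left h2 hA.le
    _ = _ := by ring

lemma main_est {x : UnitAddCircle} (hx : Good x) {ε : ℤ} (hε : ε = 1 ∨ ε = -1) (n : ℕ)
    (hn : (4 : ℝ) ^ 520 ≤ n) : Real.sqrt n / 2 ≤ ε * ∑' k, term k (ε * n) x := by
  have hn0 : (0 : ℝ) < n := lt_of_lt_of_le (by positivity) hn
  have hex : ∃ K, (n : ℝ) * δ K ≤ 1 / 16 := by
    have h := tendsto_δ.const_mul (n : ℝ)
    rw [mul_zero] at h
    exact (h.eventually (ge_mem_nhds (show (0 : ℝ) < 1 / 16 by norm_num))).exists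
  classical
  set K := Nat.find hex with hK
  have h1 : (n : ℝ) * δ K ≤ 1 / 16 := Nat.find_spec hex
  -- `K` is large
  have hK256 : 256 ≤ K := by
    by_contra hcon
    push Not at hcon
    have h2 := δ_ge K
    have h3 : ((4 : ℝ) ^ 511)⁻¹ ≤ ((4 : ℝ) ^ (2 * K + 1))⁻¹ := by
      apply inv_anti₀ (by positivity)
      exact pow_le_pow_right₀ (by norm_num) (by omega)
    have h4 : (4 : ℝ) ^ 520 * ((4 : ℝ) ^ 511)⁻¹ ≤ n * δ K := by
      apply mul_le_mul hn (h3.trans h2) (by positivity) hn0.le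
    rw [show (4 : ℝ) ^ 520 = 4 ^ 9 * 4 ^ 511 by rw [← pow_add], mul_assoc,
      mul_inv_cancel₀ (by positivity), mul_one] at h4
    norm_num at h4
    linarith
  obtain ⟨L, hL⟩ : ∃ L, K = L + 1 := ⟨K - 1, by omega⟩
  have hLmin : 1 / 16 < (n : ℝ) * δ L := by
    have := Nat.find_min hex (m := L) (by omega)
    push Not at this
    exact this
  have hKR : (256 : ℝ) ≤ K := by exact_mod_cast hK256
  -- the terms before `K`
  have hlow : -(4 * A L) ≤ ∑ k ∈ Finset.range K, (ε * term k (ε * n) x : ℝ) := by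
    have h2 : ∀ k ∈ Finset.range K, -(2 * A k) ≤ (ε * term k (ε * n) x : ℝ) := by
      intro k _
      have := term_ge_two (x := x) k (ε * n)
      rw [abs_le] at this
      rcases hε with rfl | rfl
      · push_cast; linarith [this.1]
      · push_cast; linarith [this.2]
    have h3 := Finset.sum_le_sum h2
    rw [Finset.sum_neg_distrib, ← Finset.mul_sum] at h3
    have h4 := sum_A L
    rw [← hL] at h4
    linarith
  have hAL : A L ≤ 32 * n * b L := by
    have h2 := δ_le L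
    have h3 : (0 : ℝ) < 4 ^ (2 * L + 1) := by positivity
    have h4 : (4 : ℝ) ^ (2 * L + 1) * δ L ≤ 2 := by
      have := mul_le_mul_of_nonneg_left h2 h3.le
      rwa [mul_left_comm, mul_inv_cancel₀ h3.ne', mul_one] at this
    have h5 : (4 : ℝ) ^ (2 * L + 1) ≤ 32 * n := by
      have h6 := δ_pos L
      have h7 : (4 : ℝ) ^ (2 * L + 1) * δ L ≤ (32 * n) * δ L := by nlinarith
      exact le_of_mul_le_mul_right h7 h6
    unfold A
    have := b_pos L
    nlinarith
  -- the terms from `K` on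
  have hsum : Summable (fun k => (ε * term (k + K) (ε * n) x : ℝ)) :=
    ((summable_nat_add_iff K).2 (summable_term (ε * n) x)).mul_left _
  have hpos : ∀ k, 2 * n * b (k + K) ≤ (ε * term (k + K) (ε * n) x : ℝ) := by
    intro k
    apply term_sign hx hε
    have h2 : δ (k + K) ≤ δ K := by
      rcases Nat.eq_zero_or_pos k with rfl | hk
      · rw [zero_add]
      · refine (δ_le _).trans (le_trans ?_ (δ_ge K))
        rw [show 2 * (k + K) + 1 = (2 * K + 1) + 2 * k by ring, pow_add, mul_inv]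
        have h3 : 2 * ((4 : ℝ) ^ (2 * k))⁻¹ ≤ 1 := by
          rw [← div_eq_mul_inv, div_le_one (by positivity)]
          calc (2 : ℝ) ≤ 4 ^ 1 := by norm_num
            _ ≤ 4 ^ (2 * k) := pow_le_pow_right₀ (by norm_num) (by omega)
        have h4 : (0 : ℝ) < ((4 : ℝ) ^ (2 * K + 1))⁻¹ := by positivity
        nlinarith
    exact (mul_le_mul_of_nonneg_left h2 hn0.le).trans h1
  have hhigh : (n : ℝ) / (K + 1) ≤ ∑' k, (ε * term (k + K) (ε * n) x : ℝ) := by
    have h2 : ∑ k ∈ Finset.range (K + 1), (2 * n * b (k + K) : ℝ) ≤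
        ∑' k, (ε * term (k + K) (ε * n) x : ℝ) := by
      refine (Finset.sum_le_sum fun k _ => hpos k).trans ?_
      exact hsum.sum_le_tsum _ (fun k _ => le_trans (by have := b_pos (k + K); positivity) (hpos k))
    refine le_trans (le_of_eq ?_) h2
    rw [← Finset.mul_sum, sum_b]
    push_cast
    have hK1 : (K : ℝ) + 1 ≠ 0 := by positivity
    have hK2 : (K : ℝ) + 1 + K + 1 ≠ 0 := by positivity
    field_simp
    ring
  have htot : ∑' k, (ε * term k (ε * n) x : ℝ) =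
      ∑ k ∈ Finset.range K, (ε * term k (ε * n) x : ℝ) + ∑' k, (ε * term (k + K) (ε * n) x : ℝ) :=
    (((summable_term (ε * n) x).mul_left (ε : ℝ)).sum_add_tsum_nat_add K).symm
  rw [← tsum_mul_left, htot]
  have hbL : b L = 1 / ((K : ℝ) * (K + 1)) := by
    unfold b
    rw [hL]
    push_cast
    ring
  -- numerical estimates
  have hA2 : 4 * A L ≤ n / (2 * (K + 1)) := by
    have h2 : 4 * A L ≤ 128 * n * (1 / ((K : ℝ) * (K + 1))) := by rw [← hbL]; linarith
    refine h2.trans ?_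
    rw [mul_one_div, div_le_div_iff₀ (by positivity) (by positivity)]
    nlinarith [mul_pos hn0 (show (0 : ℝ) < K + 1 by positivity)]
  have hsq : (K : ℝ) + 1 ≤ Real.sqrt n := by
    apply Real.le_sqrt_of_sq_le
    have h2 : (4 : ℝ) ^ (2 * L + 1) ≤ 32 * n := by
      have h2 := δ_le L
      have h3 : (0 : ℝ) < 4 ^ (2 * L + 1) := by positivity
      have h4 : (4 : ℝ) ^ (2 * L + 1) * δ L ≤ 2 := by
        have := mul_le_mul_of_nonneg_left h2 h3.le
        rwa [mul_left_comm, mul_inv_cancel₀ h3.ne', mul_one] at this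
      have h6 := δ_pos L
      have h7 : (4 : ℝ) ^ (2 * L + 1) * δ L ≤ (32 * n) * δ L := by nlinarith
      exact le_of_mul_le_mul_right h7 h6
    have h3 : 32 * ((K : ℝ) + 1) ^ 2 ≤ 4 ^ (2 * L + 1) := by
      have h4 : ∀ L : ℕ, 255 ≤ L → 32 * (L + 2) ^ 2 ≤ 4 ^ (2 * L + 1) := by
        intro L hL
        induction L, hL using Nat.le_induction with
        | base =>
          calc 32 * (255 + 2) ^ 2 ≤ 4 ^ 11 := by norm_num
            _ ≤ 4 ^ (2 * 255 + 1) := Nat.pow_le_pow_right (by norm_num) (by norm_num)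
        | succ L hL ih =>
          rw [show 2 * (L + 1) + 1 = (2 * L + 1) + 2 by ring, pow_add]
          nlinarith
      have h5 := h4 L (by omega)
      have h6 : ((32 * (L + 2) ^ 2 : ℕ) : ℝ) ≤ ((4 ^ (2 * L + 1) : ℕ) : ℝ) := by exact_mod_cast h5
      rw [hL]
      push_cast at h6 ⊢
      linarith
    linarith
  have hfin : Real.sqrt n / 2 ≤ n / (2 * (K + 1)) := by
    rw [div_le_div_iff₀ (by norm_num) (by positivity)]
    have h2 : Real.sqrt n * Real.sqrt n = n := Real.mul_self_sqrt hn0.le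
    nlinarith [Real.sqrt_nonneg (n : ℝ)]
  have h9 : (n : ℝ) / (K + 1) = n / (2 * (K + 1)) + n / (2 * (K + 1)) := by
    field_simp
    ring
  linarith

lemma good_mem {x : UnitAddCircle} (hx : Good x) : x ∈ discreteSet a f := by
  unfold discreteSet
  rw [mem_ofPred_eq, tendsto_atTop]
  intro C
  rw [eventually_cofinite]
  obtain ⟨B, hB⟩ := exists_nat_ge (max ((4 : ℝ) ^ 520) ((2 * C) ^ 2))
  apply (Set.finite_Icc (-(B : ℤ)) B).subset
  intro m hm
  by_contra hcon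
  apply hm
  rw [mem_Icc, ← abs_le, not_le] at hcon
  have hBm : (B : ℝ) ≤ (m.natAbs : ℝ) := by
    have : (B : ℤ) < (m.natAbs : ℤ) := by rwa [Int.natCast_natAbs]
    exact_mod_cast this.le
  obtain ⟨ε, hε, hm2⟩ : ∃ ε : ℤ, (ε = 1 ∨ ε = -1) ∧ m = ε * m.natAbs := by
    rcases le_total 0 m with h | h
    · exact ⟨1, Or.inl rfl, by rw [one_mul, Int.natCast_natAbs, abs_of_nonneg h]⟩
    · exact ⟨-1, Or.inr rfl, by rw [Int.natCast_natAbs, abs_of_nonpos h]; ring⟩
  have h1 := main_est hx hε m.natAbs (((le_max_left _ _).trans hB).trans hBm)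
  rw [← hm2, ← birkhoff_eq] at h1
  have h2 : (ε : ℝ) * birkhoff a f m x ≤ |birkhoff a f m x| := by
    rcases hε with rfl | rfl
    · push_cast; rw [one_mul]; exact le_abs_self _
    · push_cast; rw [neg_one_mul]; exact neg_le_abs _
  refine le_trans ?_ (h1.trans h2)
  have h3 : (2 * C) ^ 2 ≤ (m.natAbs : ℝ) := ((le_max_right _ _).trans hB).trans hBm
  have h4 : 2 * C ≤ Real.sqrt m.natAbs := Real.le_sqrt_of_sq_le h3
  linarith

/-! ### The dimension -/

/-- the positions of the free digits in base `4` -/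
def s (n : ℕ) : ℕ := n + 2 * Nat.sqrt n + 4

lemma s_add (n j : ℕ) : s n + j ≤ s (j + n) := by
  unfold s
  have := Nat.sqrt_le_sqrt (show n ≤ j + n by omega)
  omega

/-- the point with the given free digits -/
def pt (ω : ℕ → Fin 4) : ℝ := ∑' n, ((ω n : ℕ) : ℝ) * ((4 : ℝ) ^ (s n))⁻¹

lemma digit_le (d : Fin 4) : ((d : ℕ) : ℝ) ≤ 3 := by
  have : (d : ℕ) ≤ 3 := by omega
  exact_mod_cast this

/-- the weights of the positions from `N` on are bounded by a geometric sequence -/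
lemma weight_le (N j M : ℕ) (h : M ≤ s N) :
    ((4 : ℝ) ^ (s (j + N)))⁻¹ ≤ ((4 : ℝ) ^ M)⁻¹ * ((4 : ℝ)⁻¹) ^ j := by
  rw [inv_pow, ← mul_inv, ← pow_add]
  apply inv_anti₀ (by positivity)
  apply pow_le_pow_right₀ (by norm_num)
  have := s_add N j
  omega

lemma summable_w (N : ℕ) : Summable (fun j : ℕ => 3 * ((4 : ℝ) ^ (s (j + N)))⁻¹) := by
  apply Summable.mul_left
  refine Summable.of_nonneg_of_le (fun j => by positivity) (fun j => weight_le N j 0 (by omega)) ?_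
  simpa using summable_geometric_of_lt_one (r := (4 : ℝ)⁻¹) (by norm_num) (by norm_num)

/-- the tails -/
def Tl (N : ℕ) : ℝ := ∑' j : ℕ, 3 * ((4 : ℝ) ^ (s (j + N)))⁻¹

lemma Tl_le (N M : ℕ) (h : M ≤ s N) : Tl N ≤ 4 * ((4 : ℝ) ^ M)⁻¹ := by
  unfold Tl
  have hg : HasSum (fun j : ℕ => 3 * (((4 : ℝ) ^ M)⁻¹ * ((4 : ℝ)⁻¹) ^ j))
      (3 * (((4 : ℝ) ^ M)⁻¹ * (1 - (4 : ℝ)⁻¹)⁻¹)) :=
    ((hasSum_geometric_of_lt_one (by norm_num) (by norm_num)).mul_left _).mul_left _
  have h1 := hasSum_le (fun j => mul_le_mul_of_nonneg_left (weight_le N j M h) (by norm_num))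
    (summable_w N).hasSum hg
  refine h1.trans (le_of_eq ?_)
  norm_num
  ring

lemma Tl_succ (N : ℕ) : Tl N = 3 * ((4 : ℝ) ^ (s N))⁻¹ + Tl (N + 1) := by
  unfold Tl
  rw [(summable_w N).tsum_eq_zero_add]
  simp only [zero_add]
  congr 2
  funext j
  rw [show j + 1 + N = j + (N + 1) by ring]

lemma summable_d (ω : ℕ → Fin 4) (N : ℕ) :
    Summable (fun j : ℕ => ((ω (j + N) : ℕ) : ℝ) * ((4 : ℝ) ^ (s (j + N)))⁻¹) := by
  refine Summable.of_nonneg_of_le (fun j => by positivity) (fun j => ?_) (summable_w N)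
  have := digit_le (ω (j + N))
  gcongr

lemma tail_le (ω : ℕ → Fin 4) (N : ℕ) :
    ∑' j : ℕ, ((ω (j + N) : ℕ) : ℝ) * ((4 : ℝ) ^ (s (j + N)))⁻¹ ≤ Tl N := by
  refine (summable_d ω N).tsum_le_tsum (fun j => ?_) (summable_w N)
  have := digit_le (ω (j + N))
  gcongr

lemma tail_nonneg (ω : ℕ → Fin 4) (N : ℕ) :
    0 ≤ ∑' j : ℕ, ((ω (j + N) : ℕ) : ℝ) * ((4 : ℝ) ^ (s (j + N)))⁻¹ :=
  tsum_nonneg fun j => by positivity

lemma pt_eq (ω : ℕ → Fin 4) (N : ℕ) : pt ω =
    ∑ j ∈ Finset.range N, ((ω j : ℕ) : ℝ) * ((4 : ℝ) ^ (s j))⁻¹ +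
      ∑' j : ℕ, ((ω (j + N) : ℕ) : ℝ) * ((4 : ℝ) ^ (s (j + N)))⁻¹ :=
  ((summable_d ω 0).sum_add_tsum_nat_add N).symm

lemma sqrt_of {n K : ℕ} (h1 : K ^ 2 ≤ n) (h2 : n < (K + 1) ^ 2) : Nat.sqrt n = K := by
  exact (Nat.eq_sqrt'.2 ⟨h1, h2⟩).symm

lemma s_before {k n : ℕ} (h : n < (k - 1) ^ 2) : s n ≤ k ^ 2 := by
  unfold s
  have h1 : Nat.sqrt n < k - 1 := Nat.sqrt_lt'.2 h
  obtain ⟨j, rfl⟩ : ∃ j, k = j + 2 := ⟨k - 2, by omega⟩
  simp only [show j + 2 - 1 = j + 1 by omega] at *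
  nlinarith

lemma s_after (k : ℕ) : k ^ 2 + 3 ≤ s ((k - 1) ^ 2) := by
  unfold s
  rw [Nat.sqrt_eq']
  rcases Nat.eq_zero_or_pos k with rfl | hk
  · simp
  · obtain ⟨j, rfl⟩ : ∃ j, k = j + 1 := ⟨k - 1, by omega⟩
    simp only [show j + 1 - 1 = j by omega]
    nlinarith

lemma good_pt (ω : ℕ → Fin 4) : Good (pt ω : UnitAddCircle) := by
  intro k
  refine ⟨(4 : ℝ) ^ (k ^ 2) *
    ∑' j : ℕ, ((ω (j + (k - 1) ^ 2) : ℕ) : ℝ) * ((4 : ℝ) ^ (s (j + (k - 1) ^ 2)))⁻¹, ?_, ?_, ?_⟩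
  · exact mul_nonneg (by positivity) (tail_nonneg ω _)
  · have h1 := (tail_le ω ((k - 1) ^ 2)).trans (Tl_le ((k - 1) ^ 2) (k ^ 2 + 3) (s_after k))
    have h2 : (0 : ℝ) < 4 ^ (k ^ 2) := by positivity
    refine (mul_le_mul_of_nonneg_left h1 h2.le).trans (le_of_eq ?_)
    rw [pow_add, mul_inv]
    field_simp
    norm_num
  · rw [zsmul_coe, pt_eq ω ((k - 1) ^ 2), mul_add, AddCircle.coe_add]
    have h1 : (((4 : ℤ) ^ (k ^ 2) : ℤ) : ℝ) *
        ∑ j ∈ Finset.range ((k - 1) ^ 2), ((ω j : ℕ) : ℝ) * ((4 : ℝ) ^ (s j))⁻¹ =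
        ((∑ j ∈ Finset.range ((k - 1) ^ 2), ((ω j : ℕ) : ℤ) * 4 ^ (k ^ 2 - s j) : ℤ) : ℝ) := by
      push_cast
      rw [Finset.mul_sum]
      refine Finset.sum_congr rfl fun j hj => ?_
      have h2 := s_before (Finset.mem_range.1 hj)
      rw [mul_left_comm]
      congr 1
      rw [← div_eq_mul_inv, div_eq_iff (by positivity), ← pow_add, Nat.sub_add_cancel h2]
    rw [h1, int_coe, zero_add]
    push_cast
    rfl

/-- the gaps -/
lemma gap_ge (n : ℕ) : 1 / 2 * ((4 : ℝ) ^ ((Nat.sqrt n + 2) ^ 2))⁻¹ ≤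
    ((4 : ℝ) ^ (s n))⁻¹ - Tl (n + 1) := by
  set K := Nat.sqrt n with hK
  have hlo : K ^ 2 ≤ n := Nat.sqrt_le' n
  have hhi : n < (K + 1) ^ 2 := Nat.lt_succ_sqrt' n
  -- downward induction
  have key : ∀ d m : ℕ, m + d + 1 = (K + 1) ^ 2 → K ^ 2 ≤ m →
      1 / 2 * ((4 : ℝ) ^ ((K + 2) ^ 2))⁻¹ ≤ ((4 : ℝ) ^ (s m))⁻¹ - Tl (m + 1) := by
    intro d
    induction d with
    | zero =>
      intro m hm hm2
      have hm1 : m + 1 = (K + 1) ^ 2 := by omega
      have hs1 : s m = (K + 2) ^ 2 := by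
        unfold s
        rw [sqrt_of hm2 (by omega)]
        nlinarith
      have hs2 : (K + 2) ^ 2 + 3 ≤ s (m + 1) := by
        rw [hm1]
        have := s_after (K + 2)
        simpa using this
      have h2 := Tl_le (m + 1) _ hs2
      rw [hs1]
      rw [pow_add, mul_inv] at h2
      have h3 : (0 : ℝ) < ((4 : ℝ) ^ ((K + 2) ^ 2))⁻¹ := by positivity
      norm_num at h2
      linarith
    | succ d ih =>
      intro m hm hm2
      have h1 := ih (m + 1) (by omega) (by omega)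
      have hs1 : s (m + 1) = s m + 1 := by
        unfold s
        rw [sqrt_of hm2 (by omega), sqrt_of (K := K) (n := m + 1) (by omega) (by omega)]
        omega
      rw [Tl_succ (m + 1)]
      rw [hs1] at h1 ⊢
      have h2 : ((4 : ℝ) ^ (s m + 1))⁻¹ = ((4 : ℝ) ^ (s m))⁻¹ * 4⁻¹ := by rw [pow_succ, mul_inv]
      rw [h2] at h1 ⊢
      linarith
  exact key ((K + 1) ^ 2 - 1 - n) n (by omega) hlo

lemma sep (ω ω' : ℕ → Fin 4) (n : ℕ) (h : ∀ i < n, ω i = ω' i) (hn : ω' n < ω n) :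
    ((4 : ℝ) ^ (s n))⁻¹ - Tl (n + 1) ≤ pt ω - pt ω' := by
  rw [pt_eq ω (n + 1), pt_eq ω' (n + 1), Finset.sum_range_succ, Finset.sum_range_succ]
  have h1 : ∑ j ∈ Finset.range n, ((ω j : ℕ) : ℝ) * ((4 : ℝ) ^ (s j))⁻¹ =
      ∑ j ∈ Finset.range n, ((ω' j : ℕ) : ℝ) * ((4 : ℝ) ^ (s j))⁻¹ :=
    Finset.sum_congr rfl fun j hj => by rw [h j (Finset.mem_range.1 hj)]
  have h2 : ((ω' n : ℕ) : ℝ) + 1 ≤ ((ω n : ℕ) : ℝ) := by
    have : (ω' n : ℕ) + 1 ≤ (ω n : ℕ) := hn
    exact_mod_cast this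
  have h3 := tail_nonneg ω (n + 1)
  have h4 := tail_le ω' (n + 1)
  have h5 : (0 : ℝ) < ((4 : ℝ) ^ (s n))⁻¹ := by positivity
  rw [h1]
  nlinarith

lemma le_dimH_range {β : ℝ} (hβ : 0 < β) (hβ1 : β < 1) : ENNReal.ofReal β ≤ dimH (range pt) := by
  set η : ℝ := 1 / β - 1 with hη
  have hη0 : 0 < η := by
    rw [hη, sub_pos, lt_div_iff₀ hβ]
    linarith
  have h4 : (0 : ℝ) < 4 := by norm_num
  refine R195.CF.dim_lower (E := Fin 4) (fun _ => (4 : ℝ) ^ (-(1 / β))) (fun _ => by positivity)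
    (fun _ => ?_) hβ ?_ pt (g := 1 / 2 * (4 : ℝ) ^ (-(4 + 4 / η))) (by positivity) ?_
  · rw [show (1 / 4 : ℝ) = (4 : ℝ) ^ (-1 : ℝ) by rw [Real.rpow_neg_one]; norm_num]
    apply Real.rpow_le_rpow_of_exponent_le (by norm_num)
    linarith
  · rw [← Real.rpow_mul h4.le, show -(1 / β) * β = -1 by field_simp, Real.rpow_neg_one]
    simp
  · intro x x' n hag hne
    have h1 : 1 / 2 * ((4 : ℝ) ^ ((Nat.sqrt n + 2) ^ 2))⁻¹ ≤ |pt x - pt x'| := by
      refine (gap_ge n).trans ?_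
      rcases lt_or_gt_of_ne hne with h | h
      · rw [abs_sub_comm]
        exact (sep x' x n (fun i hi => (hag i hi).symm) h).trans (le_abs_self _)
      · exact (sep x x' n hag h).trans (le_abs_self _)
    refine le_trans ?_ h1
    rw [Finset.prod_const, Finset.card_range, ← Real.rpow_natCast, ← Real.rpow_mul h4.le, mul_assoc,
      ← Real.rpow_add h4]
    apply mul_le_mul_of_nonneg_left _ (by norm_num)
    rw [← Real.rpow_natCast, ← Real.rpow_neg h4.le]
    apply Real.rpow_le_rpow_of_exponent_le (by norm_num)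
    set q : ℝ := (Nat.sqrt n : ℝ) with hq
    have hqn : q ^ 2 ≤ n := by
      rw [hq]
      exact_mod_cast Nat.sqrt_le' n
    push_cast
    rw [← hq]
    have h5 : 4 * q ≤ η * q ^ 2 + 4 / η := by
      have : 0 ≤ (η * q - 2) ^ 2 / η := by positivity
      have h6 : (η * q - 2) ^ 2 / η = η * q ^ 2 + 4 / η - 4 * q := by
        field_simp
        ring
      linarith
    have h7 : η * q ^ 2 ≤ η * n := by gcongr
    have h8 : 1 / β = η + 1 := by rw [hη]; ring
    rw [h8]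
    nlinarith

lemma one_le_dimH_range : 1 ≤ dimH (range pt) := by
  apply le_of_forall_lt
  intro c hc
  have hc1 : c ≠ ⊤ := ne_top_of_lt hc
  have hcR : c.toReal < 1 := by
    rw [← ENNReal.toReal_one]
    exact (ENNReal.toReal_lt_toReal hc1 (by norm_num)).2 hc
  obtain ⟨β, h1, h2⟩ := exists_between hcR
  have hβ : 0 < β := lt_of_le_of_lt ENNReal.toReal_nonneg h1
  refine lt_of_lt_of_le ?_ (le_dimH_range hβ h2)
  rwa [ENNReal.lt_ofReal_iff_toReal_lt hc1]

lemma pt_bounds (ω : ℕ → Fin 4) : 0 ≤ pt ω ∧ pt ω ≤ 1 / 2 := by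
  have h1 := tail_nonneg ω 0
  have h2 := (tail_le ω 0).trans (Tl_le 0 3 (by unfold s; omega))
  have h3 : pt ω = ∑' j : ℕ, ((ω (j + 0) : ℕ) : ℝ) * ((4 : ℝ) ^ (s (j + 0)))⁻¹ := rfl
  rw [← h3] at h1 h2
  exact ⟨h1, h2.trans (by norm_num)⟩

lemma norm_pt (ω : ℕ → Fin 4) : ‖(pt ω : UnitAddCircle)‖ = pt ω := by
  obtain ⟨h1, h2⟩ := pt_bounds ω
  have h3 := (AddCircle.norm_coe_eq_abs_iff (x := pt ω) (1 : ℝ) one_ne_zero).2
    (by rw [abs_of_nonneg h1, abs_one]; exact h2)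
  rw [h3, abs_of_nonneg h1]

theorem dimH_discreteSet : dimH (discreteSet a f) = 1 := by
  apply le_antisymm
  · refine (dimH_mono (subset_univ _)).trans ?_
    have h1 : LipschitzWith 1 (fun x : ℝ => (x : UnitAddCircle)) := by
      apply LipschitzWith.of_dist_le_mul
      intro x y
      rw [dist_eq_norm, ← AddCircle.coe_sub, NNReal.coe_one, one_mul, Real.dist_eq]
      exact (QuotientAddGroup.norm_mk_le_norm (m := x - y)).trans (le_of_eq (Real.norm_eq_abs _))
    have h2 : (univ : Set UnitAddCircle) = (fun x : ℝ => (x : UnitAddCircle)) '' univ := by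
      rw [image_univ]
      exact (range_eq_univ.2 (QuotientAddGroup.mk_surjective)).symm
    rw [h2]
    refine (h1.dimH_image_le univ).trans (le_of_eq ?_)
    rw [Real.dimH_of_nonempty_interior]
    · simp
    · rw [interior_univ]; exact univ_nonempty
  · have h1 : dimH (range pt) ≤ dimH ((fun x : ℝ => (x : UnitAddCircle)) '' range pt) := by
      have h2 : range pt = norm '' ((fun x : ℝ => (x : UnitAddCircle)) '' range pt) := by
        ext x
        constructor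
        · rintro ⟨ω, rfl⟩
          exact ⟨_, ⟨_, ⟨ω, rfl⟩, rfl⟩, norm_pt ω⟩
        · rintro ⟨_, ⟨_, ⟨ω, rfl⟩, rfl⟩, rfl⟩
          exact ⟨ω, (norm_pt ω).symm⟩
      conv_lhs => rw [h2]
      exact lipschitzWith_one_norm.dimH_image_le _
    refine (one_le_dimH_range.trans h1).trans (dimH_mono ?_)
    rintro _ ⟨_, ⟨ω, rfl⟩, rfl⟩
    exact good_mem (good_pt ω)

end

/-- There are an irrational number `α` and a continuous function `φ` on the circle `ℝ / ℤ`, with
integral zero, such that the set of the points over which the orbits of the cylindrical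
transformation `(x, t) ↦ (x + α, t + φ x)` are discrete has Hausdorff dimension one. So the bound
`1/2` of the conjecture fails in the strongest possible way. -/
theorem result : ∃ (α : ℝ) (φ : UnitAddCircle → ℝ), Irrational α ∧ Continuous φ ∧
    ∫ x, φ x = 0 ∧ dimH (discreteSet (α : UnitAddCircle) φ) = 1 :=
  ⟨al, f, irrational_al, continuous_f, integral_f, dimH_discreteSet⟩

end Pool.Agent.Results.MP_7c4bf8_an.DiscreteOrbitsDimOne
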